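import Pool.Agent.U188.CT.Eqv
import Pool.Agent.R432.JG.Common
import Pool.Agent.R432.JG.GalK

/-!
# Rational points and finite descent over the fields `ℚ(ω, ∛l : l ∈ M)`, for subvarieties of products of
# cubic twists

`E_D : y² + D y = x³` is the curve 3-isogenous to `x³ + y³ = D`.  `M` is any finite set of primes
`≡ 1` modulo `9`, `Ω = ℚ(ω, ∛l : l ∈ M)`, a Galois extension of `ℚ` of degree `2 · 3 ^ #M`.  Let
`D_1, …, D_n` be squarefree numbers of the class below such that the 3-descent over `ℚ` is complete for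
all the twists `D_i ∏ l^{t_l}`, `t_l = 0, 1, 2`; by the joint law of the twists (project JL) the proportion of
these numbers in the class is exactly `c ^ {3 ^ #M}`, `c = ∏_{i ≥ 1} (1 - 3^{-i}) = 0.5601…`.  Let `X` be
any closed subset of `E_{D_1} × … × E_{D_n}` over `Ω`, for instance a curve.

Theorem.  (1) If `v` is a place of `Ω` above `3` and the point `P` of `X(Ω_v)` survives the descents
by `3 ^ k`-coverings for all `k`, then there is an `Ω`-rational point `y` of the product with `2 P = 2 y`, and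
`P_i = y_i` for all the `i` with `D_i = ±4` modulo `9`.
(2) If all the `D_i` are `±4` modulo `9` then the product has only the `3 ^ n` obvious points over `Ω`, the
surviving points of `X(Ω_v)` are exactly the `Ω`-rational points of `X`, and `X` has no `Ω`-rational point
if and only if the `3 ^ k`-Selmer set of `X` over `Ω` is empty for some `k`.

The 3-primary parts of the Tate-Shafarevich groups over `Ω` need not be trivial: they are killed by
`3 ^ #M`, so that the classes of the coverings come from rational points only after multiplication by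
`3 ^ #M`; nothing is assumed about the other primary parts.

The proof.  The transfer of the descent from `ℚ(ω)` to `Ω` (project JG), the descent with bounded
Tate-Shafarevich groups (`U188/CT/Tow`), and the local theory: the completions `Ω_v` have
`ℚ(√-3)` as a dense subfield, since the `l ∈ M` are cubes in `ℚ_3` (`U188/CT/Loc`); in such a field the points
divisible by all powers of three have order one or two, and there are no points of order two if `D = ±4`
modulo `9`; the points over `Ω` are determined by the local non-existence of cube roots of `-D²`.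
-/

set_option autoImplicit false

open IsDedekindDomain NumberField WeierstrassCurve MvPolynomial Pool.Agent.TH954 Filter Topology

open scoped Classical

namespace Pool.Agent.Results.MP_ab3ecb_nt.DescentOverCubicTowers

/-- The curve `E_D : y² + D y = x³` over `L`. -/
def curve (D : ℕ) (L : Type) [Field L] : WeierstrassCurve L := ⟨0, 0, (D : L), 0, 0⟩

/-! ### the fields and the numbers `D` -/

/-- `D` is squarefree, not divisible by `3`, not `±1` modulo `9`, not divisible by the elements of `M`,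
and divisible by exactly one prime that is `2` modulo `3`. -/
def InClass (M : Finset ℕ) (D : ℕ) : Prop :=
  Squarefree D ∧ ¬ 3 ∣ D ∧ D % 9 ≠ 1 ∧ D % 9 ≠ 8 ∧ (∀ l ∈ M, ¬ l ∣ D) ∧
    ∃ q : ℕ, q.Prime ∧ q % 3 = 2 ∧ q ∣ D ∧ ∀ p : ℕ, p.Prime → p ∣ D → p ≠ q → p % 3 = 1

/-- The number `D ∏_{l ∈ M} l ^ (t l)` with exponents `0`, `1`, `2`. -/
def twist (M : Finset ℕ) (D : ℕ) (t : {l : ℕ // l ∈ M} → ZMod 3) : ℕ :=
  D * ∏ l : {l : ℕ // l ∈ M}, l.1 ^ (t l).val

/-- `E_D(ℚ)` is finite and the `3`-primary part of `Ш(E_D / ℚ)` is zero. -/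
def TrivialThree (D : ℕ) : Prop :=
  Finite (curve D ℚ).toAffine.Point ∧
    ∀ (n : ℕ) (x : Pool.Agent.TH841.SH.D.Sha (curve D ℚ)), 3 ^ n • x = 0 → x = 0

/-- All the cubic twists of `E_D` by the numbers with prime factors in `M` have this property. -/
def Good (M : Finset ℕ) (D : ℕ) : Prop :=
  ∀ t : {l : ℕ // l ∈ M} → ZMod 3, TrivialThree (twist M D t)

/-- `Ω` is generated by `ω` and cube roots of the elements of `M`. -/
def Closure (M : Finset ℕ) (Ω : Type) [Field Ω] : Prop :=
  ∃ (ω : Ω) (r : ℕ → Ω), ω ^ 2 + ω + 1 = 0 ∧ (∀ l ∈ M, r l ^ 3 = (l : Ω)) ∧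
    ∀ S : Subfield Ω, ω ∈ S → (∀ l ∈ M, r l ∈ S) → S = ⊤

/-- The number of the `D ≤ X` in the class with the property `Q`. -/
noncomputable def num (M : Finset ℕ) (Q : ℕ → Prop) (X : ℕ) : ℕ :=
  ((Finset.Icc 1 X).filter fun D => InClass M D ∧ Q D).card

/-- `c = ∏_{i ≥ 1} (1 - 3^{-i})`. -/
noncomputable def c : ℝ := ∏' i : ℕ, (1 - (1 / 3 : ℝ) ^ (i + 1))

/-! ### the subvarieties and their Selmer sets -/

section descent

variable {K : Type} [Field K] {n : ℕ}

/-- The `L`-rational points of the closed subset `X` of `E_{D_1} × … × E_{D_n}` defined over `K` by the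
equations in `S` in the homogeneous coordinates of the `n` points. -/
def Points (D : Fin n → ℕ) (S : Set (MvPolynomial (Fin n × Fin 3) K))
    (L : Type) [Field L] [Algebra K L] :
    Set ((i : Fin n) → ((curve (D i) K).baseChange L).toAffine.Point) :=
  {P | OnX S (fun i => crd (P i))}

/-- The `L`-rational point `P` of `E_{D_1} × … × E_{D_n}` lifts to an `L`-rational point of the
`N`-covering given by the cocycles `ξ i`: there are points `Q i` over the algebraic closure of `L` with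
`N • Q i = P i` on which the Galois group of `L` acts by translation by the `ξ i`. -/
def Lifts (D : Fin n → ℕ) (N : ℕ)
    (ξ : (i : Fin n) → (AlgebraicClosure K ≃ₐ[K] AlgebraicClosure K) → AlgPt (curve (D i) K) K)
    (L : Type) [Field L] [Algebra K L]
    (P : (i : Fin n) → ((curve (D i) K).baseChange L).toAffine.Point) : Prop :=
  ∃ (ι : AlgebraicClosure K →ₐ[K] AlgebraicClosure L) (Q : (i : Fin n) → AlgPt (curve (D i) K) L),
    (∀ i, N • Q i = incl (curve (D i) K) L (P i)) ∧
      ∀ i σ τ, Compat ι σ τ → pm (curve (D i) K) ι (ξ i τ) = act (curve (D i) K) σ (Q i) - Q i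

variable [NumberField K]

/-- The `N`-Selmer set of `X`: the `N`-coverings of `E_{D_1} × … × E_{D_n}` over `K` whose pull-backs to `X`
have points over all the completions of `K`. -/
def SelmerSet (D : Fin n → ℕ) (S : Set (MvPolynomial (Fin n × Fin 3) K)) (N : ℕ) :
    Set ((i : Fin n) → (AlgebraicClosure K ≃ₐ[K] AlgebraicClosure K) → AlgPt (curve (D i) K) K) :=
  {ξ | (∀ i, IsCocycle (curve (D i) K) (ξ i)) ∧ (∀ i σ, N • ξ i σ = 0) ∧
    (∀ v : HeightOneSpectrum (𝓞 K), ∃ P ∈ Points D S (v.adicCompletion K),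
      Lifts D N ξ (v.adicCompletion K) P) ∧
    ∀ w : InfinitePlace K, ∃ P ∈ Points D S w.Completion, Lifts D N ξ w.Completion P}

/-- The local point `P` survives: for all `k` it lifts to a covering in the `3 ^ k`-Selmer set of `X`. -/
def Survives (D : Fin n → ℕ) (S : Set (MvPolynomial (Fin n × Fin 3) K)) (v : HeightOneSpectrum (𝓞 K))
    (P : (i : Fin n) → ((curve (D i) K).baseChange (v.adicCompletion K)).toAffine.Point) : Prop :=
  ∀ k : ℕ, ∃ ξ ∈ SelmerSet D S (3 ^ k), Lifts D (3 ^ k) ξ (v.adicCompletion K) P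

/-- `2 P = 2 y` for some `K`-rational point `y` of the product, and the components of `P` and `y` are equal
for the `i` with `D_i = ±4` modulo `9`. -/
def Near (D : Fin n → ℕ) (v : HeightOneSpectrum (𝓞 K))
    (P : (i : Fin n) → ((curve (D i) K).baseChange (v.adicCompletion K)).toAffine.Point) : Prop :=
  ∃ y : (i : Fin n) → ((curve (D i) K).baseChange K).toAffine.Point, ∀ i,
    ∃ z : ((curve (D i) K).baseChange (v.adicCompletion K)).toAffine.Point,
      (∀ j, crd z j = algebraMap K (v.adicCompletion K) (crd (y i) j)) ∧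
      2 • P i = 2 • z ∧ (D i % 9 = 4 ∨ D i % 9 = 5 → P i = z)

/-- Descent at the place `v` up to points of order two: every surviving point is near a rational point;
and if all `3 ^ k`-Selmer sets of `X` are non-empty then there is such a point of `X`. -/
def UpToTwo (D : Fin n → ℕ) (S : Set (MvPolynomial (Fin n × Fin 3) K)) (v : HeightOneSpectrum (𝓞 K)) :
    Prop :=
  (∀ P ∈ Points D S (v.adicCompletion K), Survives D S v P → Near D v P) ∧
    ((∀ k : ℕ, (SelmerSet D S (3 ^ k)).Nonempty) → ∃ P ∈ Points D S (v.adicCompletion K), Near D v P)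

/-- Descent at the place `v`: the surviving points are exactly the `K`-rational points of `X`. -/
def Exact (D : Fin n → ℕ) (S : Set (MvPolynomial (Fin n × Fin 3) K)) (v : HeightOneSpectrum (𝓞 K)) :
    Prop :=
  ∀ P ∈ Points D S (v.adicCompletion K), Survives D S v P ↔
    ∃ y ∈ Points D S K, ∀ i j, crd (P i) j = algebraMap K (v.adicCompletion K) (crd (y i) j)

omit [NumberField K] in
variable (K) in
/-- The points of `E_D` over `K` are `O`, `(0, 0)` and `(0, -D)`. -/
def OnlyThree (D : ℕ) : Prop :=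
  ∀ P : (curve D K).toAffine.Point, crd P = ![0, 1, 0] ∨ crd P = ![0, 0, 1] ∨ crd P = ![0, -(D : K), 1]

end descent

section proof

open Pool.Agent.R432.JG (Cl cl_iff triv_iff tw_cls pre_of twN all_goodK pts_emb exists_genK law_cnt)
open Pool.Agent.R413.MQ.Bin (cnt cnt_card cnt_congr)
open Pool.Agent.U188.CT
open Pool.Agent.Y696.CTK (ED)

theorem num_eq {M : Finset ℕ} (Q : ℕ → Prop) (X : ℕ) : num M Q X = cnt (Cl M) Q X := by
  unfold num
  symm
  refine cnt_card fun D => ?_
  rw [Finset.mem_filter, show InClass M D ↔ Cl M D from (cl_iff M D).symm]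

theorem good_iff {M : Finset ℕ} (hM : ∀ l ∈ M, l.Prime ∧ l % 9 = 1) {D : ℕ} (hD : Cl M D) :
    Good M D ↔ ∀ t : {l : ℕ // l ∈ M} → ZMod 3, Pool.Agent.Y703.CT.NoSplit (twN D M t) := by
  have h1 : ∀ t : {l : ℕ // l ∈ M} → ZMod 3,
      TrivialThree (twist M D t) ↔ Pool.Agent.Y703.CT.NoSplit (twN D M t) := fun t =>
    triv_iff (tw_cls (t := t) hD.2.1 (pre_of hM hD))
  unfold Good
  exact forall_congr' h1

theorem over_clo {M : Finset ℕ} (hM : ∀ l ∈ M, l.Prime ∧ l % 9 = 1) {D : ℕ} (hD : InClass M D)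
    (hg : Good M D) (Ω : Type) [Field Ω] [NumberField Ω] (hΩ : Closure M Ω) :
    Finite (ED (D : Ω)).toAffine.Point ∧ Kill (ED (D : Ω)) M.card := by
  obtain ⟨ω, r, h1, h2, h3⟩ := hΩ
  have hC : Cl M D := (cl_iff M D).2 hD
  exact (all_goodK hC.2.1 (pre_of hM hC) ((good_iff hM hC).1 hg) ω h1 r h2 h3).2

variable {K : Type} [Field K] [NumberField K] {n : ℕ} {D : Fin n → ℕ}
  (S : Set (MvPolynomial (Fin n × Fin 3) K))

lemma sel_eq (N : ℕ) :
    SelmerSet D S N = Pool.Agent.R419.ST.SelSet (fun i => ED (D i : K)) S N := by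
  ext ξ
  have key : ∀ (L : Type) [Field L] [Algebra K L],
      (∃ P ∈ Points D S L, Lifts D N ξ L P) ↔
        Pool.Agent.R419.ST.CovPt (fun i => ED (D i : K)) S N ξ L := by
    intro L _ _
    constructor
    · rintro ⟨P, hP, ι, Q, h1, h2⟩
      exact ⟨ι, P, Q, hP, h1, h2⟩
    · rintro ⟨ι, P, Q, hP, h1, h2⟩
      exact ⟨P, hP, ι, Q, h1, h2⟩
  constructor
  · rintro ⟨h1, h2, h3, h4⟩
    exact ⟨h1, h2, fun v => (key _).1 (h3 v), fun w => (key _).1 (h4 w)⟩
  · rintro ⟨h1, h2, h3, h4⟩
    exact ⟨h1, h2, fun v => (key _).2 (h3 v), fun w => (key _).2 (h4 w)⟩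

lemma surv_iff (v : HeightOneSpectrum (𝓞 K))
    (P : (i : Fin n) → ((curve (D i) K).baseChange (v.adicCompletion K)).toAffine.Point) :
    Survives D S v P ↔ ∀ k : ℕ, ∃ ξ ∈ Pool.Agent.R419.ST.SelSet (fun i => ED (D i : K)) S (3 ^ k),
      Pool.Agent.R419.ST.CovAt (fun i => ED (D i : K)) (3 ^ k) ξ (v.adicCompletion K) P := by
  refine forall_congr' fun k => ?_
  rw [sel_eq]
  exact Iff.rfl

lemma near_of (v : HeightOneSpectrum (𝓞 K))
    (P : (i : Fin n) → ((curve (D i) K).baseChange (v.adicCompletion K)).toAffine.Point)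
    (h : ∃ y : (i : Fin n) → ((ED (D i : K)).baseChange K).toAffine.Point,
      ∀ i, NearT (D i) (v.adicCompletion K) (P i) (y i)) : Near D v P := by
  obtain ⟨y, hy⟩ := h
  refine ⟨y, fun i => ⟨pm (ED (D i : K)) (Algebra.ofId K (v.adicCompletion K)) (y i), fun j => ?_,
    (hy i).1, fun h => (hy i).2 (by omega) (by omega)⟩⟩
  exact crd_pm' (E := ED (D i : K)) (Algebra.ofId K (v.adicCompletion K)) (y i) j

end proof

/-- **Main theorem.** -/
theorem result (M : Finset ℕ) (hM : ∀ l ∈ M, l.Prime ∧ l % 9 = 1) :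
    (∃ (Ω : Type) (_ : Field Ω) (_ : NumberField Ω), Closure M Ω) ∧
    (∀ (Ω : Type) [Field Ω] [NumberField Ω], Closure M Ω →
      ∀ (n : ℕ) (D : Fin n → ℕ), (∀ i, InClass M (D i) ∧ Good M (D i)) →
      ∀ S : Set (MvPolynomial (Fin n × Fin 3) Ω), (∀ f ∈ S, ∃ d, MultiHom d f) →
      (∀ v : HeightOneSpectrum (𝓞 Ω), (3 : 𝓞 Ω) ∈ v.asIdeal → UpToTwo D S v) ∧
      ((∀ i, D i % 9 = 4 ∨ D i % 9 = 5) → (∀ i, OnlyThree Ω (D i)) ∧
        (∀ v : HeightOneSpectrum (𝓞 Ω), (3 : 𝓞 Ω) ∈ v.asIdeal → Exact D S v) ∧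
        (Points D S Ω = ∅ ↔ ∃ k : ℕ, SelmerSet D S (3 ^ k) = ∅))) ∧
    (0.56 : ℝ) < c ∧
    Tendsto (fun X : ℕ => (num M (Good M) X : ℝ) / (num M (fun _ => True) X : ℝ)) atTop
      (𝓝 (c ^ 3 ^ M.card)) ∧
    ∃ a : ℝ, 0 < a ∧ ∃ X₀ : ℕ, ∀ X : ℕ, X₀ ≤ X →
      a * X / Real.sqrt (Real.log X) ≤ (num M (Good M) X : ℝ) := by
  have hc1 : (0.56 : ℝ) < c := Pool.Agent.R432.JG.c3_gt
  have hc0 : 0 < c := by linarith
  have hcard : (Finset.univ : Finset ({l : ℕ // l ∈ M} → ZMod 3)).card = 3 ^ M.card := by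
    rw [Finset.card_univ, Fintype.card_fun, ZMod.card, Fintype.card_coe]
  have hlaw : Tendsto (fun X : ℕ => (num M (Good M) X : ℝ) / (num M (fun _ => True) X : ℝ)) atTop
      (𝓝 (c ^ 3 ^ M.card)) := by
    have h := Pool.Agent.R432.JG.law_cnt hM Finset.univ
    rw [hcard] at h
    refine h.congr fun X => ?_
    rw [num_eq, num_eq]
    congr 2
    refine Pool.Agent.R413.MQ.Bin.cnt_congr (fun D hD => ?_) X
    rw [good_iff hM hD]
    simp
  have e2 : ∀ X, (num M (fun _ => True) X : ℝ) =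
      (((Finset.Icc 1 X).filter fun D => Pool.Agent.R432.JG.Cl M D).card : ℝ) := by
    intro X
    have : num M (fun _ => True) X =
        ((Finset.Icc 1 X).filter fun D => Pool.Agent.R432.JG.Cl M D).card := by
      rw [num_eq]
      refine Pool.Agent.R413.MQ.Bin.cnt_card fun D => ?_
      rw [Finset.mem_filter, and_iff_left trivial]
    rw [this]
  have hlow : ∀ u : ℝ, u < c ^ 3 ^ M.card → ∃ X₀ : ℕ, ∀ X : ℕ, X₀ ≤ X →
      0 < (num M (fun _ => True) X : ℝ) ∧
      u * (num M (fun _ => True) X : ℝ) ≤ (num M (Good M) X : ℝ) := by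
    intro u hu
    obtain ⟨X₁, hX₁⟩ := Filter.eventually_atTop.1
      ((hlaw.eventually (lt_mem_nhds hu)).and (Pool.Agent.R432.JG.ev_pos hM))
    refine ⟨X₁, fun X hX => ?_⟩
    obtain ⟨h2, h3⟩ := hX₁ X hX
    rw [← e2] at h3
    rw [lt_div_iff₀ h3] at h2
    exact ⟨h3, h2.le⟩
  refine ⟨?_, fun Ω _ _ hΩ n D hD S hS => ?_, hc1, hlaw, ?_⟩
  · obtain ⟨L, i1, i2, z, r, h1, h2, h3⟩ := Pool.Agent.R432.JG.exists_genK M
    exact ⟨L, i1, i2, z, r, h1, h2, h3⟩
  · have h3 : ∀ i, ¬ 3 ∣ D i := fun i => (hD i).1.2.1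
    have hfin : ∀ i, Finite (Pool.Agent.Y696.CTK.ED (D i : Ω)).toAffine.Point := fun i =>
      (over_clo hM (hD i).1 (hD i).2 Ω hΩ).1
    have hsha : ∀ i, Pool.Agent.U188.CT.Kill (Pool.Agent.Y696.CTK.ED (D i : Ω)) M.card := fun i =>
      (over_clo hM (hD i).1 (hD i).2 Ω hΩ).2
    have hloc : ∀ v : HeightOneSpectrum (𝓞 Ω), ((3 : ℕ) : 𝓞 Ω) ∈ v.asIdeal →
        Pool.Agent.U188.CT.Three (v.adicCompletion Ω) ∧
        ∃ lam, Pool.Agent.R419.ST.IsLoc (L := v.adicCompletion Ω) lam := by
      intro v hv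
      obtain ⟨ω, r, h1, h2, h3⟩ := hΩ
      exact ⟨Pool.Agent.U188.CT.three_of v hv, _,
        Pool.Agent.U188.CT.isLoc_tower h1 (fun l hl => (hM l hl).2) r h2 h3 v hv⟩
    have htors : ∀ v : HeightOneSpectrum (𝓞 Ω), ((3 : ℕ) : 𝓞 Ω) ∈ v.asIdeal →
        Pool.Agent.U188.CT.Tors (v.adicCompletion Ω) := by
      intro v hv
      have : ProperSpace (v.adicCompletion Ω) := Pool.Agent.Y791.BS.proper v
      obtain ⟨h4, lam, h5⟩ := hloc v hv
      exact Pool.Agent.U188.CT.tors_isLoc h4 h5
    have h33 : ((3 : ℕ) : 𝓞 Ω) = 3 := by norm_num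
    refine ⟨fun v hv => ?_, fun h45 => ⟨?_, ?_, ?_⟩⟩
    · rw [← h33] at hv
      refine ⟨fun P hP h => near_of v P (Pool.Agent.U188.CT.thmT1 h3 M.card hfin hsha S v
        (hloc v hv).1 (htors v hv) P ((surv_iff S v P).1 h)), fun h => ?_⟩
      obtain ⟨P, hP, h1⟩ := Pool.Agent.U188.CT.thmT2 h3 M.card hfin hsha S hS v (hloc v hv).1
        (htors v hv) (fun k => by
          rw [← sel_eq]
          exact h k)
      exact ⟨P, hP, near_of v P h1⟩
    · intro i P
      obtain ⟨v, hv⟩ := Pool.Agent.U188.CT.exists_three Ω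
      have : ProperSpace (v.adicCompletion Ω) := Pool.Agent.Y791.BS.proper v
      obtain ⟨h4, lam, h5⟩ := hloc v hv
      obtain ⟨c, hc⟩ := Pool.Agent.U188.CT.pts_K h4 h5 (h45 i) (hfin i) P
      fin_cases c
      · exact Or.inl hc
      · exact Or.inr (Or.inl hc)
      · exact Or.inr (Or.inr hc)
    · intro v hv P hP
      rw [← h33] at hv
      rw [surv_iff]
      exact Pool.Agent.U188.CT.survT h3 (fun i => by have := h45 i; omega) M.card hfin hsha S v
        (hloc v hv).1 (htors v hv) P hP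
    · obtain ⟨v, hv⟩ := Pool.Agent.U188.CT.exists_three Ω
      have h1 := Pool.Agent.U188.CT.emptyT h3 (fun i => by have := h45 i; omega) M.card hfin hsha S
        hS v (hloc v hv).1 (htors v hv)
      constructor
      · intro h
        by_contra hcon
        push Not at hcon
        obtain ⟨y, hy⟩ := h1.2 fun k => by
          rw [← sel_eq]
          exact hcon k
        have h2 : y ∈ Points D S Ω := hy
        rw [h] at h2
        exact h2
      · rintro ⟨k, hk⟩
        rw [Set.eq_empty_iff_forall_notMem]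
        intro y hy
        have h2 := h1.1 ⟨y, hy⟩ k
        rw [← sel_eq, hk] at h2
        exact Set.not_nonempty_empty h2
  · have hp : 0 < c ^ 3 ^ M.card := by positivity
    obtain ⟨X₀, h⟩ := hlow (c ^ 3 ^ M.card / 2) (by linarith)
    obtain ⟨c₀, hc₀, X₁, h1⟩ := Pool.Agent.R432.JG.low hM
    refine ⟨c ^ 3 ^ M.card / 2 * c₀, by positivity, max X₀ X₁, fun X hX => ?_⟩
    have h2 := (h X ((le_max_left _ _).trans hX)).2
    have h3 := h1 X ((le_max_right _ _).trans hX)
    rw [← e2] at h3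
    have h5 : c ^ 3 ^ M.card / 2 * c₀ * X / Real.sqrt (Real.log X) =
        c ^ 3 ^ M.card / 2 * (c₀ * X / Real.sqrt (Real.log X)) := by ring
    rw [h5]
    exact (mul_le_mul_of_nonneg_left h3 (by positivity)).trans h2

end Pool.Agent.Results.MP_ab3ecb_nt.DescentOverCubicTowers
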