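import Mathlib
import Pool.Agent.U409.HP.Fin

/-!
# Failures of the Hasse principle in families of curves of genus one are accounted for by `Br`

Let `r ≠ s` be nonzero integers such that `r s` is not a square and let `D` be a nonzero polynomial
with integer coefficients. For an integer `t` with `D(t) ≠ 0` and a squarefree `c` with
`D(t) = c k` consider the curve of genus one

`C_{c,k} : c y² = (x² - r k w²) (x² - s k w²)`.

For almost all `t` many of these curves (`(log X) ^ ((m / 2) log 2 - ε)`) are everywhere locally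
soluble, and on average `(log X) ^ (m / 2 - ε)` of them are, where `m` is the number of the
irreducible factors of odd multiplicity of `D` that stay irreducible over `ℚ(√(r s))`. But the
number of the curves that have a rational point, or an adelic point that is orthogonal to the
classes `(x² - r k w², e)`, `(x² - s k w², e)` of the Brauer group, has bounded moments of all
orders. Thus 100 percent of the everywhere locally soluble curves of the family violate the Hasse
principle and have an empty Brauer-Manin set.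
-/

set_option autoImplicit false

namespace Pool.Agent.Results.MP_ab3ecb_nt.HassePrincipleFailures

open Finset Filter Polynomial Topology
open Pool.Agent.U409.HP (Els Rat Orth Few Nz)

theorem result (r s : ℤ) (hr : r ≠ 0) (hs : s ≠ 0) (hrs : r ≠ s) (hsq : ¬ IsSquare (r * s))
    (D : ℤ[X]) (hD : D ≠ 0) (S : Finset ℤ[X]) (hS0 : S.Nonempty)
    (hS : ∀ f ∈ S, Irreducible f ∧ 0 < f.natDegree ∧ Odd (multiplicity f D) ∧
      Irreducible (f.map (Int.castRingHom (QuadraticAlgebra ℚ ((r * s : ℤ) : ℚ) 0))))
    (hSn : ∀ f ∈ S, ∀ g ∈ S, f ≠ g → ¬ Associated f g) :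
    -- the sets are finite and the curve with `c = 1` has a rational point
    (∀ d : ℤ, d ≠ 0 → (Els r s d).Finite ∧ Rat r s d ⊆ Els r s d ∧ Orth r s d ⊆ Els r s d ∧
      (1 : ℤ) ∈ Rat r s d) ∧
    -- the curves with a rational point or an orthogonal adelic point: bounded moments
    (∀ j : ℕ, ∃ C : ℝ, ∀ X : ℕ, 1 ≤ X → ∑ t ∈ Nz D X,
      ((Rat r s (D.eval t) ∪ Orth r s (D.eval t)).ncard : ℝ) ^ j ≤ C * X) ∧
    ∀ ε : ℝ, 0 < ε →
      -- the everywhere locally soluble curves: for almost all `t`, and on average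
      Tendsto (fun X : ℕ => ((Few r s D ((S.card : ℝ) / 2 * Real.log 2 - ε) X).card : ℝ) / X)
        atTop (𝓝 0) ∧
      (∀ᶠ X : ℕ in atTop, (X : ℝ) * (Real.log X) ^ ((S.card : ℝ) / 2 - ε) ≤
        ∑ t ∈ Nz D X, ((Els r s (D.eval t)).ncard : ℝ)) ∧
      -- the proportion
      ∀ᶠ X : ℕ in atTop, ∑ t ∈ Nz D X, ((Rat r s (D.eval t) ∪ Orth r s (D.eval t)).ncard : ℝ) ≤
        (Real.log X) ^ (ε - (S.card : ℝ) / 2) *
          ∑ t ∈ Nz D X, ((Els r s (D.eval t)).ncard : ℝ) := by
  have hκ : (0 : ℝ) < (S.card : ℝ) / 2 := by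
    have := hS0.card_pos
    positivity
  have h := Pool.Agent.U409.HP.dat_of hsq hD hS0 hS hSn
  refine ⟨fun d hd => ⟨Pool.Agent.U409.HP.els_finite hd, Pool.Agent.U409.HP.rat_sub_els,
    Pool.Agent.U409.HP.orth_sub_els, Pool.Agent.U409.HP.one_mem_rat⟩,
    fun j => Pool.Agent.U409.HP.momT hr hs hrs hD j, fun ε hε =>
      ⟨Pool.Agent.U409.HP.fewT hr hs hrs hκ h hε, Pool.Agent.U409.HP.avgT hr hs hrs hκ h hε,
        Pool.Agent.U409.HP.ratT hr hs hrs hD hκ h hε⟩⟩

end Pool.Agent.Results.MP_ab3ecb_nt.HassePrincipleFailures
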