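import Pool.Agent.Results.MP_ab3ecb_nt.MetricSequences
import Pool.Agent.U125.NO.Tw

/-!
# Adelic points of twists of cyclic coverings are of the type of a rational point, for twists along normal
# sequences

Let `b y ^ 2 = ∏ k, G k (z, w)` be a hyperelliptic curve `D` over `ℚ`, where the `G k` are the
homogenisations of polynomials `g k` with integral coefficients, of even degrees, pairwise coprime.
Let `h` be a polynomial with integral coefficients, coprime to the `g k`, and `H` its homogenisation.
For an integer `a` and `m ≥ 2`, `m ∣ deg h`, consider the curve

  `C a : b y ^ 2 = ∏ k, G k (z, w)`, `a x ^ m = H (z, w)`,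

a cyclic covering of `D`. The classes of the quaternion algebras `(G k, e)`, `e` a nonzero integer, belong to the
Brauer group of `C a`. An adelic point of `C a` is orthogonal if the sum of the local invariants of each of these
classes is zero. The type of a point over a field is the family of the values of the `G k` modulo squares.

The integer `a` has the property `GoodTwist` (definition of the starting result `MetricSequences`) if for all
`m ≥ 2`, `m ∣ deg h`:

* every orthogonal adelic point of `C a` has at all places the type of a persistent class, a family `n k`
  of squarefree integers with `∏ n k = b t ^ 2`, such that every automorphism `σ` of the field of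
  algebraic numbers fixes a zero `β` of `h` and numbers `y k` with `g k (β) = n k * y k ^ 2`;
* if all persistent classes are those of integral zeros of `h` (`OnlyZeros`; for instance, if the zeros of `h` are
  one or two integers), every orthogonal adelic point has at all places the type of the same rational point of
  `C a`, which lies over an integral zero of `h` (`x = 0`).

The starting result treats the twists by `a = λ(c_x)` for metric sequences of vectors `c_x` and almost all
multipliers, and `ConvergentsOfNormalNumbers` the convergents of continued fraction normal numbers. Here:

**Theorem.** Let `c_0, c_1, …` be a normal orbit in `ℤ^ι` (`NormalOrbit`): the orbit of an integral vector under a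
finite family of integral affine maps along ANY normal sequence of indices, the family being wide (for all `q`
prime to some `q₀` the maps are bijective modulo `q`, and the vector can be moved to at least the proportion
`ε > 0`, not depending on `q`, of all vectors modulo `q`). Then the sequence is `Good`: there is ONE set `E` of
density zero such that for ALL families `(b, g, h)` and ALL linear forms `λ ≠ 0` the twist by `a = λ(c_x)` has the
property `GoodTwist` for all but finitely many `x ∉ E`.

Examples: (1) `c_x = (⌊b ^ x ξ_i⌋)_i` for ANY vector `ξ` of real numbers which is normal to the base `b ≥ 2`: so we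
twist the curves by the integers which appear if we write down the digits of ANY normal number; (2) the orbit of
any vector `v ≠ 0` along ANY normal word in matrices which generate the special linear group modulo all `q`
prime to some `q₀` (generators of a thin group); (3) vectors of integers whose digits are chosen from a
restricted set of vectors.

Proof. The exceptional vectors are pronull sets (starting library), and normal orbits visit a pronull set only at
times of density zero (engine `Pool.Agent.U125.NO`); a diagonal argument gives one set `E`.
-/

set_option autoImplicit false

namespace Pool.Agent.Results.MP_ab3ecb_nt.NormalSequences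

open Polynomial
open Pool.Agent.N676.OR (Big)
open Pool.Agent.U125.NO (NormalOrbit Examples examples)
open Pool.Agent.Results.MP_ab3ecb_nt.TypesOfOrthogonalPoints (Admissible)
open Pool.Agent.Results.MP_ab3ecb_nt.MetricSequences (Good GoodTwist goodTwist_of)

theorem result :
    (∀ (ι : Type) [Fintype ι] [DecidableEq ι] (c : ℕ → ι → ℤ), NormalOrbit c → Good c) ∧
    ∀ (ι : Type) [Fintype ι] [DecidableEq ι], Examples ι := by
  classical
  have hcp := Pool.Agent.N676.OR.countable_poly
  refine ⟨fun ι _ _ c hc => ?_, fun ι _ _ => examples ι⟩
  obtain ⟨E, hE, hall⟩ := Pool.Agent.U125.NO.twists (𝔇 := Σ r : ℕ, ℤ × (Fin r → ℤ[X]) × ℤ[X])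
    (fun D a => Admissible D.2.1 D.2.2.1 D.2.2.2 → GoodTwist D.2.1 D.2.2.1 D.2.2.2 a) (by
    rintro ⟨r, b, g, h⟩
    by_cases hA : Admissible b g h
    · obtain ⟨PP, h1, h2, h3⟩ := goodTwist_of hA
      exact ⟨PP, h1, h2, fun a ha _ => h3 a ha⟩
    · exact ⟨∅, Set.finite_empty, fun P hP => absurd hP (Set.notMem_empty _),
        fun a _ hA' => absurd hA' hA⟩) hc.avoids
  refine ⟨E, hE, fun r b g h hA lam hlam => (hall lam hlam ⟨r, b, g, h⟩).subset ?_⟩
  rintro t ⟨ht, ht'⟩
  exact ⟨ht, fun hgood => ht' (hgood hA)⟩

end Pool.Agent.Results.MP_ab3ecb_nt.NormalSequences
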