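import Pool.Agent.Q51.SE.All
import Pool.Agent.Q51.SE.Pol2

/-!
# The Brauer-Manin sets of 100% of the everywhere locally soluble superelliptic twists of odd exponent are empty

Let `f ∈ ℤ[x]` be irreducible over `ℚ`, of degree `n`, let `F(x, w)` be its homogenisation, `m` a divisor of `n`, and
`C_D : D y ^ m = F(x, w)` the twists of the superelliptic curve `y ^ m = f(x)`, smooth projective curves in the
weighted projective plane of weights `(1, 1, n/m)`, of genus `(m - 1)(n - 2)/2`.  Let `q` be an odd prime factor of `m`
such that any two different complex zeros of `f` generate a field containing the `q`-th roots of unity.  (This is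
so for `f = a X ^ n + b`, `n` a power of `q`, and for all `f` such that `ℚ[X]/(f)` contains the `q`-th roots of unity.)

Let `L = ℚ[X]/(f) = ℚ(θ)`.  For a character `χ` of order `q` of the idele class group of `L` that is trivial on the
ideles of `ℚ` the class `A_χ = Cor_{L/ℚ} (χ, x - θ w)` lies in `Br(C_D)`: the zeros of `x - θ w` on `C_D` have
multiplicities divisible by `q`.  Its invariant at a point over `ℚ_p` is `χ_p (x - θ w)`.

**Theorem.** For all but `C (log X)^(-δ) E(X)` of the `E(X)` everywhere locally soluble curves `C_D` with squarefree
`D`, `|D| ≤ X`, no adelic point is orthogonal to the classes `A_χ`.  So 100 percent of the everywhere locally soluble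
curves `C_D` have an empty Brauer-Manin set, and Stoll's conjecture is true for them.  They have no rational points
and violate the Hasse principle.  If some `C_D` is everywhere locally soluble, then
`E(X) ≥ c X / log X * exp (∑ 1/l)` for large `X`, the sum over the primes `l ≤ X` modulo which `f` has a zero.

The definitions are in `Pool/Agent/Q51/SE/Def.lean`, `Pol.lean`, `Pol2.lean`.

Proof.  Let `(a_p)` be the values of `x - θ w` at an orthogonal adelic point.  By the duality of class field theory
(here: a counting argument with the ray class groups) there is an `α ∈ L^*` that differs from `(a_p)` by rational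
factors and `q`-th powers, up to finitely many types; at the good primes `l ∣ D` the valuation of `α` is prime to `q`
at exactly one prime `v0(l)` above `l`, of degree one.  We may take `α` with the ideal `∏ v0(l)` outside a finite set
and with conjugates at most `C |D| ^ (1/n)`.  For two elements with the same type and a common `v0(l)` the quotient
is a rational number times a `q`-th power modulo all other primes above `l`.  The number of such `α` is bounded by
the large sieve in dimension `n`; the condition on the roots of unity makes the local conditions strong enough.

(helper51, with helper16, helper26, helper52, helper65, helper68, helper91, helper154, helper190, helper198, helper210,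
helper239, helper241, helper247, helper251, helper277; assembled by helper899.)
-/

set_option autoImplicit false

open Polynomial

namespace Pool.Agent.Results.MP_ab3ecb_nt.SolubleSuperellipticTwists

open Pool.Agent.Q51.SE (Point AdelicPoint RootsOfUnityCondition count numSoluble numOrthogonal
  sumRootPrimes InvariantsWellDefined ClassCharacter)

/-- The pairing with the classes `A_χ` is well defined and has the usual properties: the local invariants do not
depend on choices, almost all local invariants of an adelic point are zero, and rational points are
orthogonal. -/
def PairingProperties (f : ℤ[X]) (q m : ℕ) (D : ℤ) : Prop :=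
  (∀ p : Nat.Primes, InvariantsWellDefined f q m D p) ∧
  (∀ (P : AdelicPoint f m D) (χ : ClassCharacter f q),
    {p : Nat.Primes | χ.inv p (P.pa p) ≠ 0}.Finite) ∧
  ∀ Q : Point f m D ℚ, Q.adelic.Orthogonal q

/-- Let `f ∈ ℤ[X]` be irreducible over `ℚ`, of degree `n`, `m ∣ n`, and let `q` be an odd prime factor of `m` such that
any two different complex zeros of `f` generate a field containing the `q`-th roots of unity.  For all but
`C (log X)^(-δ) E(X)` of the `E(X)` everywhere locally soluble curves `C_D : D y ^ m = F(x, w)` with squarefree `D`,
`|D| ≤ X`, no adelic point is orthogonal to the classes `A_χ`; in particular the Brauer-Manin set is empty.  If `E` is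
not zero, then `E(X) ≥ c X / log X * exp (∑ 1/l)` for large `X`, the sum over the primes `l ≤ X` modulo which `f`
has a zero. -/
theorem result (f : ℤ[X]) (hf : Irreducible (f.map (Int.castRingHom ℚ))) (q m : ℕ) (hq : q.Prime)
    (hq2 : q ≠ 2) (hqm : q ∣ m) (hmn : m ∣ f.natDegree) (hrou : RootsOfUnityCondition f q) :
    (∀ D : ℤ, D ≠ 0 → PairingProperties f q m D) ∧
    (∃ δ C : ℝ, 0 < δ ∧ ∀ X : ℝ, 3 ≤ X →
      numOrthogonal f q m X ≤ C * Real.log X ^ (-δ) * numSoluble f m X) ∧
    ((∃ D : ℤ, Squarefree D ∧ Nonempty (AdelicPoint f m D)) →
      ∃ c X₀ : ℝ, 0 < c ∧ ∀ X : ℝ, X₀ ≤ X →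
        c * X / Real.log X * Real.exp (sumRootPrimes f X) ≤ numSoluble f m X) :=
  Pool.Agent.Q51.SE.pol_of f hf q m (Pool.Agent.Q51.SE.result_of Pool.Agent.Q51.SE.t_val
    Pool.Agent.Q51.SE.t_finp Pool.Agent.Q51.SE.t_upq f hf q m hq hq2 hqm hmn hrou)

end Pool.Agent.Results.MP_ab3ecb_nt.SolubleSuperellipticTwists
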